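import Pool.Agent.Lib.MP_e0da8e_an.TR.Rel

namespace Pool.Agent.Results.MP_e0da8e_an.CountableExceptions

open Pool.Agent.Lib.MP_e0da8e_an

/-- Let `0 < ρ < 1/2`. If `1/ρ` is a root of no monic integer polynomial whose coefficients have
absolute value at most `1` above some degree `j` and at most `2` below `j` (the coefficient of
degree `j` being free), then `L²(μ_{ρ,d})` admits a Fourier frame for every `d > 0`. -/
theorem result (ρ : ℝ) (h0 : 0 < ρ) (h1 : ρ < 1 / 2)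
    (h : ∀ (P : Polynomial ℤ) (j : ℕ), P.Monic → (∀ i, j < i → |P.coeff i| ≤ 1) →
      (∀ i, i < j → |P.coeff i| ≤ 2) → Polynomial.aeval ρ⁻¹ P ≠ 0) (d : ℝ) (hd : 0 < d) :
    HasFourierFrame (bernoulliConv ρ d) :=
  TR.hasFrame_of_monic h0 h1 h hd

/-- Corollary: the negated form of Q1, with `ρ = 2/5`. -/
theorem negated_form : ∃ ρ : ℝ, 0 < ρ ∧ ρ < 1 / 2 ∧ (∀ k : ℕ, ρ ≠ 1 / (2 * k)) ∧
    ∃ d : ℝ, 0 < d ∧ HasFourierFrame (bernoulliConv ρ d) := by
  refine ⟨2 / 5, by norm_num, by norm_num, fun k hk => ?_, 1, one_pos,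
    result _ (by norm_num) (by norm_num) (fun P _ hP _ _ e => ?_) 1 one_pos⟩
  · have k0 : (k : ℝ) ≠ 0 := by rintro e; norm_num [e] at hk
    have : (4 * k : ℝ) = 5 := by field_simp at hk; linarith
    have : 4 * k = 5 := by exact_mod_cast this
    omega
  · have h : IsIntegral ℤ ((2 / 5 : ℝ))⁻¹ := ⟨P, hP, e⟩
    have e' : ((2 / 5 : ℝ))⁻¹ = algebraMap ℚ ℝ (5 / 2) := by norm_num
    rw [e', isIntegral_algebraMap_iff (algebraMap ℚ ℝ).injective] at h
    obtain ⟨k, hk⟩ := IsIntegrallyClosed.isIntegral_iff.1 h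
    have h2 : (k : ℚ) = 5 / 2 := by simpa using hk
    have h3 : (2 * k : ℚ) = 5 := by rw [h2]; norm_num
    have h4 : (2 * k : ℤ) = 5 := by exact_mod_cast h3
    omega

end Pool.Agent.Results.MP_e0da8e_an.CountableExceptions
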