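import Pool.Agent.Lib.MP_e0da8e_an.QI.Main

namespace Pool.Agent.Results.MP_e0da8e_an.UnitRoots

open Pool.Agent.Lib.MP_e0da8e_an

/-- If `0 < ρ < 1/2` and `ρ^(-m) + c ρ^m` is an integer for some `m ≥ 1` and some sign `c`, then
`L²(μ_{ρ,d})` admits no Fourier frame. -/
theorem result (ρ : ℝ) (h0 : 0 < ρ) (h1 : ρ < 1 / 2) (m : ℕ) (hm : 1 ≤ m) (c N : ℤ)
    (hc : c = 1 ∨ c = -1) (h : ρ⁻¹ ^ m + c * ρ ^ m = N) (d : ℝ) (hd : 0 < d) :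
    ¬ HasFourierFrame (bernoulliConv ρ d) :=
  QI.no_frame_unit h0 h1 hd hm hc h

end Pool.Agent.Results.MP_e0da8e_an.UnitRoots
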